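import Pool.Agent.Run7.h987.RT.Iface

/-! Piece KER of project RT (helper987, MP_fc1499_an). -/

set_option autoImplicit false

open MeasureTheory Set SchwartzMap
open scoped FourierTransform SchwartzMap ContDiff Pointwise Topology ENNReal

noncomputable section

namespace Pool.Agent.Run7.h888.RT

open Pool.Agent.Run7.h987.BL Pool.Agent.Run7.h987.RT

/-- the one dimensional window -/
lemma one_dim (r κ : ℝ) (hr : 0 < r) (hκ : 0 < κ) (h : 1 / κ < 2 * r) :
    ∃ g : ℝ → ℝ, ContDiff ℝ ∞ g ∧ (∀ y, r < |y| → g y = 0) ∧ ∀ m : ℤ,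
      ∫ y : ℝ, (g y : ℂ) * Complex.exp (((2 * Real.pi * κ * m : ℝ) : ℂ) * Complex.I * y)
        = if m = 0 then 1 else 0 := by
  set a : ℝ := 1 / (2 * κ) with ha
  have ha0 : 0 < a := by positivity
  have har : a < r := by
    have : 1 / κ = 2 * a := by
      rw [ha]
      field_simp
    linarith
  set τ : ℝ := r - a with hτ
  have hτ0 : 0 < τ := by linarith
  set B : ℝ → ℝ := fun x => Real.smoothTransition ((x + τ) / (2 * τ)) with hB
  have hB0 : ∀ x, x ≤ -τ → B x = 0 := by
    intro x hx
    apply Real.smoothTransition.zero_of_nonpos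
    apply div_nonpos_of_nonpos_of_nonneg <;> linarith
  have hB1 : ∀ x, τ ≤ x → B x = 1 := by
    intro x hx
    apply Real.smoothTransition.one_of_one_le
    rw [le_div_iff₀ (by linarith)]
    linarith
  have hBc : ContDiff ℝ ∞ B := by
    have h1 : ContDiff ℝ ∞ fun x : ℝ => (x + τ) / (2 * τ) := by fun_prop
    exact Real.smoothTransition.contDiff.comp h1
  have hBcont : Continuous B := hBc.continuous
  refine ⟨fun y => κ * (B (y + a) - B (y - a)), ?_, ?_, ?_⟩
  · have h1 : ContDiff ℝ ∞ fun y : ℝ => B (y + a) := hBc.comp (by fun_prop)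
    have h2 : ContDiff ℝ ∞ fun y : ℝ => B (y - a) := hBc.comp (by fun_prop)
    exact contDiff_const.mul (h1.sub h2)
  · intro y hy
    show κ * (B (y + a) - B (y - a)) = 0
    rcases lt_abs.mp hy with h1 | h1
    · rw [hB1 _ (by linarith), hB1 _ (by linarith)]
      ring
    · rw [hB0 _ (by linarith), hB0 _ (by linarith)]
      ring
  · intro m
    set c : ℂ := ((2 * Real.pi * κ * m : ℝ) : ℂ) * Complex.I with hc
    set M : ℝ := r + 1 with hM
    have hper : ∀ y : ℝ, Complex.exp (c * ((y - 2 * a : ℝ) : ℂ)) = Complex.exp (c * y) := by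
      intro y
      have h1 : c * ((y - 2 * a : ℝ) : ℂ) = c * y - m * (2 * Real.pi * Complex.I) := by
        have h2 : κ * (2 * a) = 1 := by
          rw [ha]
          field_simp
        have h3 : c * ((2 * a : ℝ) : ℂ) = m * (2 * Real.pi * Complex.I) := by
          rw [hc]
          have : ((2 * Real.pi * κ * m : ℝ) : ℂ) * Complex.I * ((2 * a : ℝ) : ℂ)
              = (((κ * (2 * a)) : ℝ) : ℂ) * (m * (2 * Real.pi * Complex.I)) := by
            push_cast
            ring
          rw [this, h2]
          simp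
        rw [Complex.ofReal_sub, mul_sub, h3]
      rw [h1, Complex.exp_sub, Complex.exp_int_mul_two_pi_mul_I, div_one]
    set G : ℝ → ℂ := fun y => (B (y + a) : ℂ) * Complex.exp (c * y) with hG
    have hGc : Continuous G := by
      have h1 : Continuous fun y : ℝ => (B (y + a) : ℂ) :=
        Complex.continuous_ofReal.comp (hBcont.comp (by fun_prop))
      exact h1.mul (by fun_prop)
    have hsupp : ∫ y : ℝ, ((κ * (B (y + a) - B (y - a)) : ℝ) : ℂ) * Complex.exp (c * y)
        = ∫ y in (-M)..M, ((κ * (B (y + a) - B (y - a)) : ℝ) : ℂ) * Complex.exp (c * y) := by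
      symm
      apply intervalIntegral.integral_eq_integral_of_support_subset
      intro y hy
      by_contra hcon
      apply hy
      have h1 : r < |y| := by
        rw [Set.mem_Ioc, not_and_or] at hcon
        rw [lt_abs]
        rcases hcon with h2 | h2
        · right
          linarith
        · left
          linarith
      show ((κ * (B (y + a) - B (y - a)) : ℝ) : ℂ) * Complex.exp (c * y) = 0
      rcases lt_abs.mp h1 with h1 | h1
      · rw [hB1 _ (by linarith), hB1 _ (by linarith)]
        simp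
      · rw [hB0 _ (by linarith), hB0 _ (by linarith)]
        simp
    have hsplit : ∫ y in (-M)..M, ((κ * (B (y + a) - B (y - a)) : ℝ) : ℂ) * Complex.exp (c * y)
        = κ * ((∫ y in (-M)..M, G y) - ∫ y in (-M - 2 * a)..(M - 2 * a), G y) := by
      have hG2 : Continuous fun y : ℝ => G (y - 2 * a) := hGc.comp (by fun_prop)
      rw [← intervalIntegral.integral_comp_sub_right (fun y => G y) (2 * a),
        ← intervalIntegral.integral_sub (hGc.intervalIntegrable _ _) (hG2.intervalIntegrable _ _),
        ← intervalIntegral.integral_const_mul]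
      apply intervalIntegral.integral_congr
      intro y _
      show ((κ * (B (y + a) - B (y - a)) : ℝ) : ℂ) * Complex.exp (c * y)
        = κ * ((B (y + a) : ℂ) * Complex.exp (c * y)
          - (B (y - 2 * a + a) : ℂ) * Complex.exp (c * ((y - 2 * a : ℝ) : ℂ)))
      rw [hper y]
      have h1 : y - 2 * a + a = y - a := by ring
      rw [h1]
      push_cast
      ring
    have hleft : ∫ y in (-M)..(-M - 2 * a), G y = 0 := by
      have h1 : ∫ y in (-M)..(-M - 2 * a), G y = ∫ y in (-M)..(-M - 2 * a), (0 : ℂ) := by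
        apply intervalIntegral.integral_congr
        intro y hy
        rw [Set.uIcc_of_ge (by linarith)] at hy
        show (B (y + a) : ℂ) * Complex.exp (c * y) = 0
        rw [hB0 _ (by linarith [hy.2])]
        simp
      rw [h1]
      simp
    have hright : ∫ y in M..(M - 2 * a), G y = ∫ y in M..(M - 2 * a), Complex.exp (c * y) := by
      apply intervalIntegral.integral_congr
      intro y hy
      rw [Set.uIcc_of_ge (by linarith)] at hy
      show (B (y + a) : ℂ) * Complex.exp (c * y) = Complex.exp (c * y)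
      rw [hB1 _ (by linarith [hy.1])]
      simp
    show ∫ y : ℝ, ((κ * (B (y + a) - B (y - a)) : ℝ) : ℂ) * Complex.exp (c * y) = _
    rw [hsupp, hsplit, intervalIntegral.integral_interval_sub_interval_comm
      (hGc.intervalIntegrable _ _) (hGc.intervalIntegrable _ _) (hGc.intervalIntegrable _ _),
      hleft, hright]
    by_cases hm : m = 0
    · have hc0 : c = 0 := by
        rw [hc, hm]
        simp
      rw [if_pos hm, hc0]
      simp only [zero_mul, Complex.exp_zero, intervalIntegral.integral_const, zero_sub]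
      have h2 : κ * (2 * a) = 1 := by
        rw [ha]
        field_simp
      have h3 : (M - 2 * a - M) • (1 : ℂ) = ((-(2 * a) : ℝ) : ℂ) := by
        rw [Complex.real_smul]
        push_cast
        ring
      rw [h3]
      have h4 : (κ : ℂ) * (-((-(2 * a) : ℝ) : ℂ)) = ((κ * (2 * a) : ℝ) : ℂ) := by
        push_cast
        ring
      rw [h4, h2]
      simp
    · have hc0 : c ≠ 0 := by
        rw [hc]
        apply mul_ne_zero _ Complex.I_ne_zero
        rw [Complex.ofReal_ne_zero]
        have : (m : ℝ) ≠ 0 := by exact_mod_cast hm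
        have := Real.pi_pos
        positivity
      rw [if_neg hm, integral_exp_mul_complex hc0, hper M]
      simp

theorem t_KER : P_KER := by
  intro k p r κ hk hr hκ hκr
  obtain ⟨g, hgc, hgs, hgi⟩ := one_dim r κ hr hκ hκr
  set φ : E k → ℂ := fun ξ => ∏ i, (g (ξ i - p i) : ℂ) with hφ
  have hφc : ContDiff ℝ ∞ φ := by
    apply contDiff_prod
    intro i _
    have h1 : ContDiff ℝ ∞ fun ξ : E k => ξ i - p i :=
      ((EuclideanSpace.proj (𝕜 := ℝ) i).contDiff).sub contDiff_const
    exact Complex.ofRealCLM.contDiff.comp (hgc.comp h1)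
  have hφs : ∀ ξ : E k, ξ ∉ cub p r → φ ξ = 0 := by
    intro ξ hξ
    have h1 : ∃ i, r < |ξ i - p i| := by
      by_contra hcon
      push Not at hcon
      apply hξ
      show dist (WithLp.ofLp ξ) p ≤ r
      rw [dist_pi_le_iff hr.le]
      intro i
      rw [Real.dist_eq]
      exact hcon i
    obtain ⟨i, hi⟩ := h1
    apply Finset.prod_eq_zero (Finset.mem_univ i)
    rw [hgs _ hi, Complex.ofReal_zero]
  have hφk : HasCompactSupport φ := HasCompactSupport.intro (isCompact_cub p r) hφs
  set φS : 𝓢(E k, ℂ) := hφk.toSchwartzMap hφc with hφS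
  have hφSa : ∀ ξ, φS ξ = φ ξ := fun ξ => rfl
  set ψ : 𝓢(E k, ℂ) := 𝓕⁻ φS with hψ
  have hval : ∀ z : Zk k, ψ (κ • vec z) = ∏ i, (Complex.exp (((2 * Real.pi * κ * z i : ℝ) : ℂ) *
      Complex.I * p i) * if z i = 0 then 1 else 0) := by
    intro z
    rw [hψ, SchwartzMap.fourierInv_coe, Real.fourierInv_eq']
    set f : Fin k → ℝ → ℂ := fun i y => (g (y - p i) : ℂ) *
      Complex.exp (((2 * Real.pi * κ * z i : ℝ) : ℂ) * Complex.I * y) with hf
    have h1 : ∀ ξ : E k, Complex.exp ((↑(2 * Real.pi * inner ℝ ξ (κ • (vec z : E k))) * Complex.I)) • φS ξ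
        = (fun x : Fin k → ℝ => ∏ i, f i (x i)) (WithLp.ofLp ξ) := by
      intro ξ
      show _ = ∏ i, ((g (ξ i - p i) : ℂ) *
        Complex.exp (((2 * Real.pi * κ * z i : ℝ) : ℂ) * Complex.I * (ξ i : ℝ)))
      rw [Finset.prod_mul_distrib, ← Complex.exp_sum, hφSa, smul_eq_mul, mul_comm]
      congr 2
      have h2 : inner ℝ ξ (κ • (vec z : E k)) = ∑ i, κ * z i * ξ i := by
        rw [PiLp.inner_apply]
        apply Finset.sum_congr rfl
        intro i _
        simp
      rw [h2, Finset.mul_sum, Complex.ofReal_sum, Finset.sum_mul]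
      apply Finset.sum_congr rfl
      intro i _
      push_cast
      ring
    simp_rw [h1]
    have h3 : ∫ ξ : E k, (fun x : Fin k → ℝ => ∏ i, f i (x i)) (WithLp.ofLp ξ)
        = ∫ x : Fin k → ℝ, ∏ i, f i (x i) :=
      (EuclideanSpace.volume_preserving_symm_measurableEquiv_toLp (Fin k)).integral_comp'
        (fun x : Fin k → ℝ => ∏ i, f i (x i))
    rw [h3, integral_fintype_prod_volume_eq_prod]
    apply Finset.prod_congr rfl
    intro i _
    rw [← hgi (z i), ← integral_const_mul]
    rw [← integral_sub_right_eq_self (fun y : ℝ => Complex.exp (((2 * Real.pi * κ * z i : ℝ) : ℂ) *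
      Complex.I * p i) * ((g y : ℂ) * Complex.exp (((2 * Real.pi * κ * z i : ℝ) : ℂ) * Complex.I * y)))
      (p i)]
    congr 1
    ext y
    show (g (y - p i) : ℂ) * Complex.exp (((2 * Real.pi * κ * z i : ℝ) : ℂ) * Complex.I * y)
      = Complex.exp (((2 * Real.pi * κ * z i : ℝ) : ℂ) * Complex.I * p i) * ((g (y - p i) : ℂ) *
        Complex.exp (((2 * Real.pi * κ * z i : ℝ) : ℂ) * Complex.I * ((y - p i : ℝ) : ℂ)))
    rw [mul_left_comm, ← Complex.exp_add]
    congr 2
    push_cast
    ring
  refine ⟨ψ, ?_, ?_, ?_⟩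
  · have h1 := hval 0
    have h2 : κ • (vec (0 : Zk k) : E k) = 0 := by
      have : (vec (0 : Zk k) : E k) = 0 := by
        ext i
        simp
      rw [this, smul_zero]
    rw [h2] at h1
    rw [h1]
    apply Finset.prod_eq_one
    intro i _
    simp
  · intro z hz
    rw [hval z]
    obtain ⟨i, hi⟩ : ∃ i, z i ≠ 0 := by
      by_contra hcon
      push Not at hcon
      exact hz (funext hcon)
    apply Finset.prod_eq_zero (Finset.mem_univ i)
    rw [if_neg hi, mul_zero]
  · intro u hu
    rw [← SchwartzMap.integral_fourier_mul_eq ψ u]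
    have h1 : (𝓕 ψ : 𝓢(E k, ℂ)) = φS := by
      rw [hψ]
      exact FourierTransform.fourier_fourierInv_eq φS
    rw [h1]
    have h2 : ∀ ξ, φS ξ * u ξ = 0 := by
      intro ξ
      by_cases h3 : ξ ∈ cub p r
      · have h4 : ξ ∉ tsupport u := fun h => Set.disjoint_left.mp hu h h3
        rw [image_eq_zero_of_notMem_tsupport h4, mul_zero]
      · rw [hφSa, hφs ξ h3, zero_mul]
    simp [h2]

end Pool.Agent.Run7.h888.RT
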