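import Pool.Agent.Run7.h987.RT.Iface

/-! Piece SEPSUM of project RT (helper987, MP_fc1499_an). -/

set_option autoImplicit false

open MeasureTheory Set SchwartzMap
open scoped FourierTransform SchwartzMap ContDiff Pointwise Topology ENNReal

noncomputable section

namespace Pool.Agent.Run7.h888.RT

open Pool.Agent.Run7.h987.BL Pool.Agent.Run7.h987.RT

lemma norm_le_sum_abs {k : ℕ} (v : E k) : ‖v‖ ≤ ∑ i, |v i| := by
  have h1 : v = ∑ i, v i • (EuclideanSpace.single i (1 : ℝ)) := by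
    ext j
    simp [Pi.single_apply]
  calc ‖v‖ = ‖∑ i, v i • (EuclideanSpace.single i (1 : ℝ))‖ := by rw [← h1]
    _ ≤ ∑ i, ‖v i • (EuclideanSpace.single i (1 : ℝ))‖ := norm_sum_le _ _
    _ = ∑ i, |v i| := by
      apply Finset.sum_congr rfl
      intro i _
      rw [norm_smul, EuclideanSpace.norm_single]
      simp

lemma sep_bound (k : ℕ) (ψ : 𝓢(E k, ℂ)) (κ : ℝ) (hκ : 0 < κ) :
    ∃ C : ℝ, 0 ≤ C ∧ ∀ R : ℝ, 0 ≤ R → ∀ (ι : Type) (p : ι → E k),
      (∀ i j, i ≠ j → κ ≤ ‖p i - p j‖) → ∀ (t : E k) (s : Finset ι),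
      (∀ i ∈ s, R ≤ ‖t - p i‖) → ∑ i ∈ s, ‖ψ (t - p i)‖ ≤ C / (1 + R) := by
  classical
  set C0 : ℝ := 2 ^ (2 * k + 1) *
    (Finset.Iic ((2 * k + 1, 0) : ℕ × ℕ)).sup (fun m => SchwartzMap.seminorm ℝ m.1 m.2) ψ with hC0
  have hdec : ∀ x : E k, (1 + ‖x‖) ^ (2 * k + 1) * ‖ψ x‖ ≤ C0 := by
    intro x
    have := SchwartzMap.one_add_le_sup_seminorm_apply (𝕜 := ℝ) (m := (2 * k + 1, 0)) (k := 2 * k + 1)
      (n := 0) le_rfl le_rfl ψ x
    rwa [norm_iteratedFDeriv_zero] at this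
  have hC00 : 0 ≤ C0 :=
    (by positivity : (0 : ℝ) ≤ (1 + ‖(0 : E k)‖) ^ (2 * k + 1) * ‖ψ 0‖).trans (hdec 0)
  set h : ℝ := κ / (k + 1) with hh
  have hh0 : 0 < h := by positivity
  set A : ℝ := 2 + 1 / h with hA
  have hA0 : 0 < A := by positivity
  set Wt : ℝ := ∑' m : Fin k → ℤ, ∏ i, wt (m i) with hWt
  have hWt0 : 0 ≤ Wt := tsum_nonneg fun m => Finset.prod_nonneg fun i _ => wt_nonneg _
  refine ⟨C0 * A ^ (2 * k) * Wt, by positivity, ?_⟩
  intro R hR ι p hp t s hs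
  set n : Fin k → ℤ := fun l => ⌊t l / h⌋ with hn
  set c : ι → Fin k → ℤ := fun i l => ⌊p i l / h⌋ with hc
  -- injectivity
  have hinj : Function.Injective c := by
    intro i j hij
    by_contra hne
    have h1 := hp i j hne
    have h2 : ‖p i - p j‖ ≤ ∑ l : Fin k, h := by
      refine (norm_le_sum_abs _).trans (Finset.sum_le_sum fun l _ => ?_)
      have h3 : ⌊p i l / h⌋ = ⌊p j l / h⌋ := congrFun hij l
      have h4 := Int.abs_sub_lt_one_of_floor_eq_floor h3
      rw [← sub_div, abs_div, abs_of_pos hh0, div_lt_one hh0] at h4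
      have h5 : (p i - p j) l = p i l - p j l := rfl
      rw [h5]
      exact h4.le
    rw [Finset.sum_const, Finset.card_univ, Fintype.card_fin, nsmul_eq_mul] at h2
    have h6 : (k : ℝ) * h < κ := by
      rw [hh, ← mul_div_assoc, div_lt_iff₀ (by positivity)]
      nlinarith
    linarith
  have hterm : ∀ i ∈ s, ‖ψ (t - p i)‖ ≤ C0 * A ^ (2 * k) / (1 + R) * ∏ l, wt (n l - c i l) := by
    intro i hi
    set x : E k := t - p i with hx
    have hx0 : 0 ≤ ‖x‖ := norm_nonneg x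
    have h1 : ∏ l, (1 + |((n l - c i l : ℤ) : ℝ)|) ^ 2 ≤ A ^ (2 * k) * (1 + ‖x‖) ^ (2 * k) := by
      have h2 : ∀ l : Fin k, (1 + |((n l - c i l : ℤ) : ℝ)|) ^ 2 ≤ A ^ 2 * (1 + ‖x‖) ^ 2 := by
        intro l
        rw [← mul_pow]
        refine pow_le_pow_left₀ (by positivity) ?_ 2
        have h3 : |x l| ≤ ‖x‖ := PiLp.norm_apply_le x l
        have h4 : x l = t l - p i l := rfl
        have h5 : |((n l - c i l : ℤ) : ℝ)| ≤ |x l| / h + 1 := by
          push_cast
          have f1 := Int.floor_le (t l / h)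
          have f2 := Int.lt_floor_add_one (t l / h)
          have f3 := Int.floor_le (p i l / h)
          have f4 := Int.lt_floor_add_one (p i l / h)
          have f5 : |x l| / h = |t l / h - p i l / h| := by
            rw [h4, ← sub_div, abs_div, abs_of_pos hh0]
          rw [f5]
          have f6 := neg_abs_le (t l / h - p i l / h)
          have f7 := le_abs_self (t l / h - p i l / h)
          rw [abs_le]
          constructor
          · show -(|t l / h - p i l / h| + 1) ≤ (⌊t l / h⌋ : ℝ) - ⌊p i l / h⌋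
            linarith
          · show (⌊t l / h⌋ : ℝ) - ⌊p i l / h⌋ ≤ |t l / h - p i l / h| + 1
            linarith
        have h6 : |x l| / h ≤ ‖x‖ / h := div_le_div_of_nonneg_right h3 hh0.le
        have h7 : A * (1 + ‖x‖) = 2 + 2 * ‖x‖ + 1 / h + ‖x‖ / h := by
          rw [hA]
          ring
        have h8 : 0 < 1 / h := by positivity
        rw [h7]
        linarith
      calc ∏ l, (1 + |((n l - c i l : ℤ) : ℝ)|) ^ 2
          ≤ ∏ _l : Fin k, (A ^ 2 * (1 + ‖x‖) ^ 2) :=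
            Finset.prod_le_prod (fun l _ => by positivity) fun l _ => h2 l
        _ = A ^ (2 * k) * (1 + ‖x‖) ^ (2 * k) := by
            simp [mul_pow, pow_mul]
    have hP : 0 < ∏ l, (1 + |((n l - c i l : ℤ) : ℝ)|) ^ 2 :=
      Finset.prod_pos fun l _ => by positivity
    have h8 : ∏ l, wt (n l - c i l) = (∏ l, (1 + |((n l - c i l : ℤ) : ℝ)|) ^ 2)⁻¹ := by
      unfold wt
      rw [Finset.prod_inv_distrib]
    have hRx : R ≤ ‖x‖ := hs i hi
    rw [h8, ← div_eq_mul_inv, le_div_iff₀ hP, le_div_iff₀ (by positivity)]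
    calc (‖ψ x‖ * ∏ l, (1 + |((n l - c i l : ℤ) : ℝ)|) ^ 2) * (1 + R)
        ≤ ‖ψ x‖ * (A ^ (2 * k) * (1 + ‖x‖) ^ (2 * k)) * (1 + ‖x‖) := by
          apply mul_le_mul _ (by linarith) (by positivity) (by positivity)
          exact mul_le_mul_of_nonneg_left h1 (norm_nonneg _)
      _ = A ^ (2 * k) * ((1 + ‖x‖) ^ (2 * k + 1) * ‖ψ x‖) := by ring
      _ ≤ A ^ (2 * k) * C0 := mul_le_mul_of_nonneg_left (hdec x) (by positivity)
      _ = C0 * A ^ (2 * k) := by ring
  calc ∑ i ∈ s, ‖ψ (t - p i)‖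
      ≤ ∑ i ∈ s, C0 * A ^ (2 * k) / (1 + R) * ∏ l, wt (n l - c i l) := Finset.sum_le_sum hterm
    _ = C0 * A ^ (2 * k) / (1 + R) * ∑ i ∈ s, ∏ l, wt (n l - c i l) := by rw [Finset.mul_sum]
    _ = C0 * A ^ (2 * k) / (1 + R) * ∑ m ∈ s.image c, ∏ l, wt (n l - m l) := by
        rw [Finset.sum_image (fun i _ j _ hij => hinj hij)]
    _ ≤ C0 * A ^ (2 * k) / (1 + R) * Wt := by
        apply mul_le_mul_of_nonneg_left _ (by positivity)
        rw [hWt, ← tsum_wts_sub n]
        exact (summable_wts_sub n).sum_le_tsum _ fun m _ => Finset.prod_nonneg fun l _ => wt_nonneg _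
    _ = C0 * A ^ (2 * k) * Wt / (1 + R) := by ring

theorem t_SEPSUM : P_SEPSUM := by
  intro k ψ κ hκ
  obtain ⟨C, hC, h⟩ := sep_bound k ψ κ hκ
  refine ⟨⟨C, hC, fun ι p hp t s => ?_⟩, fun ε hε => ?_⟩
  · have := h 0 le_rfl ι p hp t s fun i _ => norm_nonneg _
    simpa using this
  · refine ⟨C / ε, by positivity, fun ι p hp t s hs => ?_⟩
    refine (h (C / ε) (by positivity) ι p hp t s hs).trans ?_
    rw [div_le_iff₀ (by positivity)]
    have : ε * (1 + C / ε) = ε + C := by field_simp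
    rw [this]
    linarith

end Pool.Agent.Run7.h888.RT
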