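import Pool.Agent.Run7.h888.RT.SEPSUM

/-! Piece FIX of project RT (helper987, MP_fc1499_an). -/

set_option autoImplicit false

open MeasureTheory Set SchwartzMap Filter
open scoped FourierTransform SchwartzMap ContDiff Pointwise Topology ENNReal

noncomputable section

namespace Pool.Agent.Run7.h888.RT

open Pool.Agent.Run7.h987.BL Pool.Agent.Run7.h987.RT

universe u

/-- uniformly convergent sums of continuous functions -/
lemma unif_tsum {ι X : Type*} [TopologicalSpace X] (f : ι → X → ℂ) (hf : ∀ i, Continuous (f i))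
    (h : ∀ ε : ℝ, 0 < ε → ∃ s0 : Finset ι, ∀ x, ∀ s : Finset ι, Disjoint s s0 →
      ∑ i ∈ s, ‖f i x‖ ≤ ε) : Continuous fun x => ∑' i, f i x := by
  classical
  have hsum : ∀ x, Summable fun i => ‖f i x‖ := by
    intro x
    obtain ⟨s0, hs0⟩ := h 1 one_pos
    refine summable_of_sum_le (c := 1 + ∑ i ∈ s0, ‖f i x‖) (fun i => norm_nonneg _) fun s => ?_
    have h1 : ∑ i ∈ s, ‖f i x‖ ≤ ∑ i ∈ (s \ s0) ∪ s0, ‖f i x‖ := by
      apply Finset.sum_le_sum_of_subset_of_nonneg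
      · intro i hi
        by_cases h2 : i ∈ s0
        · exact Finset.mem_union_right _ h2
        · exact Finset.mem_union_left _ (Finset.mem_sdiff.mpr ⟨hi, h2⟩)
      · intro i _ _
        exact norm_nonneg _
    rw [Finset.sum_union Finset.sdiff_disjoint] at h1
    have h2 := hs0 x (s \ s0) Finset.sdiff_disjoint
    linarith
  have hunif : TendstoUniformly (fun (s : Finset ι) x => ∑ i ∈ s, f i x) (fun x => ∑' i, f i x)
      atTop := by
    rw [Metric.tendstoUniformly_iff]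
    intro ε hε
    obtain ⟨s0, hs0⟩ := h (ε / 2) (by linarith)
    filter_upwards [eventually_ge_atTop s0] with s hs x
    have h0 : Tendsto (fun s' : Finset ι => ∑ i ∈ s', f i x) atTop (𝓝 (∑' i, f i x)) := by
      have := (hsum x).of_norm.hasSum
      simpa [HasSum] using this
    have h1 : Tendsto (fun s' : Finset ι => ‖∑ i ∈ s', f i x - ∑ i ∈ s, f i x‖) atTop
        (𝓝 ‖∑' i, f i x - ∑ i ∈ s, f i x‖) := (h0.sub tendsto_const_nhds).norm
    have h2 : ‖∑' i, f i x - ∑ i ∈ s, f i x‖ ≤ ε / 2 := by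
      refine le_of_tendsto h1 ?_
      filter_upwards [eventually_ge_atTop s] with s' hs'
      rw [← Finset.sum_sdiff hs', add_sub_cancel_right]
      refine (norm_sum_le _ _).trans (hs0 x _ ?_)
      exact Finset.disjoint_of_subset_right hs Finset.sdiff_disjoint
    rw [dist_eq_norm]
    linarith
  exact hunif.continuous (Frequently.of_forall fun s => continuous_finset_sum s fun i _ => hf i)

variable {k : ℕ}

lemma abs_le_norm_vec (n : Zk k) (i : Fin k) : |(n i : ℝ)| ≤ ‖(vec n : E k)‖ :=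
  PiLp.norm_apply_le (vec n : E k) i

lemma one_le_norm_vec {n : Zk k} (h : n ≠ 0) : 1 ≤ ‖(vec n : E k)‖ := by
  obtain ⟨i, hi⟩ : ∃ i, n i ≠ 0 := by
    by_contra hcon
    push Not at hcon
    exact h (funext hcon)
  refine le_trans ?_ (abs_le_norm_vec n i)
  have h1 := Int.one_le_abs hi
  exact_mod_cast h1

lemma pos_add (κ : ℝ) (n q z : Zk k) : pos κ (n + q) z = pos κ n z + vec q := by
  unfold pos
  rw [vec_add]
  abel

/-- the terms of the sum -/
def Tm {X : Type u} (ψ : 𝓢(E k, ℂ)) (κ : ℝ) (ρ : X → Zk k → Zk k → ℝ) (D : X → Zk k → Zk k → ℂ)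
    (n z : Zk k) (i : Zk k × Zk k) (x : X) : ℂ :=
  if i.1 = n then 0 else (ρ x i.1 i.2 : ℂ) * D x i.1 i.2 * ψ (pos κ n z - pos κ i.1 i.2)

section

variable {X : Type u} [TopologicalSpace X] [AddAction (Zk k) X] {ψ : 𝓢(E k, ℂ)} {κ R L C : ℝ}
  {ρ : X → Zk k → Zk k → ℝ}

lemma pos_sep (hκ : 0 < κ) (hR : κ ≤ R) (hW : Wts κ R L ρ) (x : X) (i j : Zk k × Zk k)
    (hij : i ≠ j) (hi : 0 < ρ x i.1 i.2) (hj : 0 < ρ x j.1 j.2) :
    κ ≤ ‖pos κ i.1 i.2 - pos κ j.1 j.2‖ := by
  by_cases h : i.1 = j.1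
  · have h2 : i.2 - j.2 ≠ 0 := by
      intro h3
      exact hij (Prod.ext h (sub_eq_zero.mp h3))
    have h4 : pos κ i.1 i.2 - pos κ j.1 j.2 = κ • vec (i.2 - j.2) := by
      unfold pos
      rw [h, vec_sub, smul_sub]
      abel
    rw [h4, norm_smul, Real.norm_eq_abs, abs_of_pos hκ]
    have := one_le_norm_vec h2
    nlinarith
  · exact hR.trans (hW.sep x _ _ _ _ h hi hj)

/-- finite sums of the terms -/
lemma tm_sum (hκ : 0 < κ) (hR : κ ≤ R) (hW : Wts κ R L ρ)
    (hC : ∀ R : ℝ, 0 ≤ R → ∀ (ι : Type) (p : ι → E k),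
      (∀ i j, i ≠ j → κ ≤ ‖p i - p j‖) → ∀ (t : E k) (s : Finset ι),
      (∀ i ∈ s, R ≤ ‖t - p i‖) → ∑ i ∈ s, ‖ψ (t - p i)‖ ≤ C / (1 + R))
    (D : X → Zk k → Zk k → ℂ) {A : ℝ} (hA : 0 ≤ A) (hD : ∀ x n z, ‖D x n z‖ ≤ A) (x : X)
    (n z : Zk k) {R' : ℝ} (hR' : 0 ≤ R') (s : Finset (Zk k × Zk k))
    (hs : ∀ i ∈ s, i.1 ≠ n → 0 < ρ x i.1 i.2 → R' ≤ ‖pos κ n z - pos κ i.1 i.2‖) :
    ∑ i ∈ s, ‖Tm ψ κ ρ D n z i x‖ ≤ A * (C / (1 + R')) := by
  classical
  set s' := s.filter fun i => i.1 ≠ n ∧ 0 < ρ x i.1 i.2 with hs'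
  have h1 : ∑ i ∈ s, ‖Tm ψ κ ρ D n z i x‖ = ∑ i ∈ s', ‖Tm ψ κ ρ D n z i x‖ := by
    symm
    apply Finset.sum_filter_of_ne
    intro i _ hne
    constructor
    · intro h
      apply hne
      unfold Tm
      rw [if_pos h, norm_zero]
    · by_contra h
      have h0 : ρ x i.1 i.2 = 0 := le_antisymm (not_lt.mp h) (hW.nonneg x _ _)
      apply hne
      unfold Tm
      rw [h0]
      simp
  rw [h1]
  have h2 : ∀ i ∈ s', ‖Tm ψ κ ρ D n z i x‖ ≤ A * ‖ψ (pos κ n z - pos κ i.1 i.2)‖ := by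
    intro i hi
    have hi2 := (Finset.mem_filter.mp hi).2
    unfold Tm
    rw [if_neg hi2.1, norm_mul, norm_mul, Complex.norm_real, Real.norm_eq_abs, abs_of_pos hi2.2]
    apply mul_le_mul_of_nonneg_right _ (norm_nonneg _)
    have h3 := hW.le_one x i.1 i.2
    have h4 := hD x i.1 i.2
    have h5 := norm_nonneg (D x i.1 i.2)
    nlinarith
  refine (Finset.sum_le_sum h2).trans ?_
  rw [← Finset.mul_sum]
  apply mul_le_mul_of_nonneg_left _ hA
  rw [← Finset.sum_coe_sort s' fun i => ‖ψ (pos κ n z - pos κ i.1 i.2)‖]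
  refine hC R' hR' (s' : Type) (fun i => pos κ i.1.1 i.1.2) ?_ (pos κ n z) Finset.univ ?_
  · intro i j hij
    have hi2 := (Finset.mem_filter.mp i.2).2
    have hj2 := (Finset.mem_filter.mp j.2).2
    exact pos_sep hκ hR hW x i.1 j.1 (fun h => hij (Subtype.ext h)) hi2.2 hj2.2
  · intro i _
    have hi := Finset.mem_filter.mp i.2
    exact hs i.1 hi.1 hi.2.1 hi.2.2

lemma tm_summable (hκ : 0 < κ) (hR : κ ≤ R) (hW : Wts κ R L ρ)
    (hC : ∀ R : ℝ, 0 ≤ R → ∀ (ι : Type) (p : ι → E k),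
      (∀ i j, i ≠ j → κ ≤ ‖p i - p j‖) → ∀ (t : E k) (s : Finset ι),
      (∀ i ∈ s, R ≤ ‖t - p i‖) → ∑ i ∈ s, ‖ψ (t - p i)‖ ≤ C / (1 + R))
    (D : X → Zk k → Zk k → ℂ) {A : ℝ} (hA : 0 ≤ A) (hD : ∀ x n z, ‖D x n z‖ ≤ A) (x : X)
    (n z : Zk k) : Summable fun i => ‖Tm ψ κ ρ D n z i x‖ :=
  summable_of_sum_le (c := A * (C / (1 + 0))) (fun i => norm_nonneg _) fun s =>
    tm_sum hκ hR hW hC D hA hD x n z le_rfl s fun i _ _ _ => norm_nonneg _

/-- the sum at an active point -/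
lemma tm_small (hκ : 0 < κ) (hR : κ ≤ R) (hW : Wts κ R L ρ)
    (hC : ∀ R : ℝ, 0 ≤ R → ∀ (ι : Type) (p : ι → E k),
      (∀ i j, i ≠ j → κ ≤ ‖p i - p j‖) → ∀ (t : E k) (s : Finset ι),
      (∀ i ∈ s, R ≤ ‖t - p i‖) → ∑ i ∈ s, ‖ψ (t - p i)‖ ≤ C / (1 + R)) (hC0 : 0 ≤ C)
    (hR2 : 2 * C ≤ R)
    (D : X → Zk k → Zk k → ℂ) {A : ℝ} (hA : 0 ≤ A) (hD : ∀ x n z, ‖D x n z‖ ≤ A) (x : X)
    (n z : Zk k) (hρ : 0 < ρ x n z) : ‖∑' i, Tm ψ κ ρ D n z i x‖ ≤ A / 2 := by
  have hR0 : 0 ≤ R := by linarith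
  have h1 : ∀ s : Finset (Zk k × Zk k), ∑ i ∈ s, ‖Tm ψ κ ρ D n z i x‖ ≤ A * (C / (1 + R)) :=
    fun s => tm_sum hκ hR hW hC D hA hD x n z hR0 s fun i _ hin hi =>
      hW.sep x n z i.1 i.2 (Ne.symm hin) hρ hi
  have h2 := tm_summable hκ hR hW hC D hA hD x n z
  have h3 : ‖∑' i, Tm ψ κ ρ D n z i x‖ ≤ A * (C / (1 + R)) :=
    (norm_tsum_le_tsum_norm h2).trans (h2.tsum_le_of_sum_le h1)
  refine h3.trans ?_
  have h4 : C / (1 + R) ≤ 1 / 2 := by
    rw [div_le_iff₀ (by linarith)]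
    linarith
  nlinarith

/-- continuity of the sum -/
lemma tm_cont (hκ : 0 < κ) (hR : κ ≤ R) (hW : Wts κ R L ρ)
    (hC : ∀ R : ℝ, 0 ≤ R → ∀ (ι : Type) (p : ι → E k),
      (∀ i j, i ≠ j → κ ≤ ‖p i - p j‖) → ∀ (t : E k) (s : Finset ι),
      (∀ i ∈ s, R ≤ ‖t - p i‖) → ∑ i ∈ s, ‖ψ (t - p i)‖ ≤ C / (1 + R)) (hC0 : 0 ≤ C)
    (D : X → Zk k → Zk k → ℂ) {A : ℝ} (hA : 0 ≤ A) (hD : ∀ x n z, ‖D x n z‖ ≤ A)
    (hDc : ∀ n z, Continuous fun x => D x n z)
    (n z : Zk k) : Continuous fun x => ∑' i, Tm ψ κ ρ D n z i x := by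
  classical
  apply unif_tsum
  · intro i
    unfold Tm
    by_cases h : i.1 = n
    · simp only [h, if_true]
      exact continuous_const
    · simp only [h, if_false]
      exact ((Complex.continuous_ofReal.comp (hW.cont i.1 i.2)).mul (hDc i.1 i.2)).mul
        continuous_const
  · intro ε hε
    set R' : ℝ := A * C / ε with hR'
    have hR'0 : 0 ≤ R' := by positivity
    set t := pos κ n z with ht
    obtain ⟨M, hM⟩ := exists_nat_ge (max (L / κ) (‖t‖ + R' + L))
    have hM1 : L / κ ≤ M := (le_max_left _ _).trans hM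
    have hM2 : ‖t‖ + R' + L ≤ M := (le_max_right _ _).trans hM
    set bx : Finset (Zk k) := Finset.Icc (fun _ => -(M : ℤ)) (fun _ => (M : ℤ)) with hbx
    have hbxm : ∀ m : Zk k, m ∉ bx → (M : ℝ) < ‖(vec m : E k)‖ := by
      intro m hm
      by_contra hcon
      push Not at hcon
      apply hm
      rw [hbx, Finset.mem_Icc]
      constructor
      · intro i
        have h1 := (abs_le_norm_vec m i).trans hcon
        have h2 := (abs_le.mp h1).1
        exact_mod_cast h2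
      · intro i
        have h1 := (abs_le_norm_vec m i).trans hcon
        have h2 := (abs_le.mp h1).2
        exact_mod_cast h2
    refine ⟨bx ×ˢ bx, fun x s hs => ?_⟩
    have h1 := tm_sum hκ hR hW hC D hA hD x n z hR'0 s (fun i hi _ hρi => by
      have h2 : i ∉ bx ×ˢ bx := fun h => Finset.disjoint_left.mp hs hi h
      rw [Finset.mem_product, not_and_or] at h2
      have h3 := hW.loc x i.1 i.2 hρi
      rcases h2 with h2 | h2
      · have h4 := hbxm _ h2
        have h5 : (vec i.1 : E k) = t - (t - pos κ i.1 i.2) - κ • vec i.2 := by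
          unfold pos
          abel
        have h6 : ‖(vec i.1 : E k)‖ ≤ ‖t‖ + ‖t - pos κ i.1 i.2‖ + ‖κ • (vec i.2 : E k)‖ := by
          conv_lhs => rw [h5]
          exact (norm_sub_le _ _).trans (by
            have := norm_sub_le t (t - pos κ i.1 i.2)
            linarith)
        linarith
      · exfalso
        have h4 := hbxm _ h2
        rw [norm_smul, Real.norm_eq_abs, abs_of_pos hκ] at h3
        rw [div_le_iff₀ hκ] at hM1
        nlinarith)
    refine h1.trans ?_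
    rw [hR', ← mul_div_assoc, div_le_iff₀ (by positivity)]
    have h2 : ε * (1 + A * C / ε) = ε + A * C := by field_simp
    rw [h2]
    linarith

lemma tm_sub (D D' : X → Zk k → Zk k → ℂ) (n z : Zk k) (i : Zk k × Zk k) (x : X) :
    Tm ψ κ ρ (fun x n z => D x n z - D' x n z) n z i x
      = Tm ψ κ ρ D n z i x - Tm ψ κ ρ D' n z i x := by
  unfold Tm
  by_cases h : i.1 = n
  · simp only [h, if_true, sub_zero]
  · simp only [h, if_false]
    ring

/-- the iterates -/
def It (ψ : 𝓢(E k, ℂ)) (κ : ℝ) (ρ : X → Zk k → Zk k → ℝ) (u : X → Zk k → Zk k → ℂ) :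
    ℕ → X → Zk k → Zk k → ℂ
  | 0 => fun _ _ _ => 0
  | m + 1 => fun x n z => (ρ x n z : ℂ) * (u x n z - ∑' i, Tm ψ κ ρ (It ψ κ ρ u m) n z i x)

end

theorem t_FIX : P_FIX.{u} := by
  intro k ψ κ hκ
  obtain ⟨C, hC0, hC⟩ := sep_bound k ψ κ hκ
  refine ⟨max κ (2 * C), le_max_left _ _, ?_⟩
  intro X _ _ _ R L B ρ u hR0 hB hW hu
  have hR : κ ≤ R := (le_max_left _ _).trans hR0
  have hR2 : 2 * C ≤ R := (le_max_right _ _).trans hR0
  have h2B : 0 ≤ 2 * B := by linarith
  -- the iterates are coefficient families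
  have hIt : ∀ m, Coef (2 * B) (It ψ κ ρ u m) := by
    intro m
    induction m with
    | zero =>
      refine ⟨fun n z => continuous_const, fun x n z => ?_, fun q x n z => rfl⟩
      show ‖(0 : ℂ)‖ ≤ 2 * B
      rw [norm_zero]
      exact h2B
    | succ m ih =>
      refine ⟨fun n z => ?_, fun x n z => ?_, fun q x n z => ?_⟩
      · exact (Complex.continuous_ofReal.comp (hW.cont n z)).mul ((hu.cont n z).sub
          (tm_cont hκ hR hW hC hC0 _ h2B ih.bdd ih.cont n z))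
      · show ‖(ρ x n z : ℂ) * (u x n z - ∑' i, Tm ψ κ ρ (It ψ κ ρ u m) n z i x)‖ ≤ 2 * B
        rcases (hW.nonneg x n z).eq_or_lt with h0 | h0
        · rw [← h0]
          simpa using hB
        · rw [norm_mul, Complex.norm_real, Real.norm_eq_abs, abs_of_pos h0]
          have h1 := tm_small hκ hR hW hC hC0 hR2 _ h2B ih.bdd x n z h0
          have h2 := hu.bdd x n z
          have h3 := norm_sub_le (u x n z) (∑' i, Tm ψ κ ρ (It ψ κ ρ u m) n z i x)
          have h4 := hW.le_one x n z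
          have h5 := norm_nonneg (u x n z - ∑' i, Tm ψ κ ρ (It ψ κ ρ u m) n z i x)
          nlinarith
      · show (ρ (q +ᵥ x) n z : ℂ) * (u (q +ᵥ x) n z - ∑' i, Tm ψ κ ρ (It ψ κ ρ u m) n z i (q +ᵥ x))
          = (ρ x (n + q) z : ℂ) * (u x (n + q) z - ∑' i, Tm ψ κ ρ (It ψ κ ρ u m) (n + q) z i x)
        rw [hW.equi, hu.equi]
        congr 2
        rw [← ((Equiv.addRight q).prodCongr (Equiv.refl (Zk k))).tsum_eq
          (fun i => Tm ψ κ ρ (It ψ κ ρ u m) (n + q) z i x)]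
        apply tsum_congr
        intro i
        unfold Tm
        simp only [Equiv.prodCongr_apply, Prod.map_fst, Prod.map_snd, Equiv.coe_addRight,
          Equiv.refl_apply, add_left_inj]
        rw [hW.equi, ih.equi, pos_add, pos_add, add_sub_add_right_eq_sub]
  -- differences
  have hdiff : ∀ m x n z, ‖It ψ κ ρ u m x n z - It ψ κ ρ u (m + 1) x n z‖ ≤ 2 * B * (1 / 2) ^ m := by
    intro m
    induction m with
    | zero =>
      intro x n z
      have h1 := (hIt 1).bdd x n z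
      have h2 : It ψ κ ρ u 0 x n z = 0 := rfl
      rw [h2, zero_sub, norm_neg, pow_zero, mul_one]
      exact h1
    | succ m ih =>
      intro x n z
      have h1 : It ψ κ ρ u (m + 1) x n z - It ψ κ ρ u (m + 1 + 1) x n z
          = -((ρ x n z : ℂ) * ∑' i, Tm ψ κ ρ (fun x n z => It ψ κ ρ u m x n z
            - It ψ κ ρ u (m + 1) x n z) n z i x) := by
        have s1 := (tm_summable hκ hR hW hC _ h2B (hIt m).bdd x n z).of_norm
        have s2 := (tm_summable hκ hR hW hC _ h2B (hIt (m + 1)).bdd x n z).of_norm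
        have h2 : ∑' i, Tm ψ κ ρ (fun x n z => It ψ κ ρ u m x n z
            - It ψ κ ρ u (m + 1) x n z) n z i x = ∑' i, Tm ψ κ ρ (It ψ κ ρ u m) n z i x
            - ∑' i, Tm ψ κ ρ (It ψ κ ρ u (m + 1)) n z i x := by
          rw [← s1.tsum_sub s2]
          exact tsum_congr fun i => tm_sub _ _ n z i x
        rw [h2]
        show (ρ x n z : ℂ) * (u x n z - ∑' i, Tm ψ κ ρ (It ψ κ ρ u m) n z i x)
          - (ρ x n z : ℂ) * (u x n z - ∑' i, Tm ψ κ ρ (It ψ κ ρ u (m + 1)) n z i x) = _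
        ring
      rw [h1, norm_neg, norm_mul, Complex.norm_real, Real.norm_eq_abs, abs_of_nonneg (hW.nonneg x n z)]
      have hm0 : 0 ≤ 2 * B * (1 / 2) ^ m := by positivity
      rcases (hW.nonneg x n z).eq_or_lt with h0 | h0
      · rw [← h0, zero_mul]
        positivity
      · have h3 := tm_small hκ hR hW hC hC0 hR2 _ hm0 ih x n z h0
        have h4 := hW.le_one x n z
        have h5 := norm_nonneg (∑' i, Tm ψ κ ρ (fun x n z => It ψ κ ρ u m x n z
            - It ψ κ ρ u (m + 1) x n z) n z i x)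
        rw [pow_succ]
        nlinarith
  have hcau : ∀ x n z, CauchySeq fun m => It ψ κ ρ u m x n z := fun x n z =>
    cauchySeq_of_le_geometric (1 / 2) (2 * B) (by norm_num) fun m => by
      rw [dist_eq_norm]
      exact hdiff m x n z
  choose D hDlim using fun x n z => cauchySeq_tendsto_of_complete (hcau x n z)
  have hDdist : ∀ m x n z, ‖It ψ κ ρ u m x n z - D x n z‖ ≤ 4 * B * (1 / 2) ^ m := by
    intro m x n z
    have h1 := dist_le_of_le_geometric_of_tendsto (1 / 2) (2 * B) (by norm_num)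
      (fun m => by
        rw [dist_eq_norm]
        exact hdiff m x n z) (hDlim x n z) m
    rw [dist_eq_norm] at h1
    have h2 : 2 * B * (1 / 2) ^ m / (1 - 1 / 2) = 4 * B * (1 / 2) ^ m := by ring
    rw [h2] at h1
    exact h1
  have hgeo : Tendsto (fun m : ℕ => 4 * B * (1 / 2 : ℝ) ^ m) atTop (𝓝 0) := by
    have := (tendsto_pow_atTop_nhds_zero_of_lt_one (by norm_num : (0 : ℝ) ≤ 1 / 2)
      (by norm_num)).const_mul (4 * B)
    simpa using this
  have hDb : ∀ x n z, ‖D x n z‖ ≤ 2 * B := fun x n z =>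
    le_of_tendsto (hDlim x n z).norm (Eventually.of_forall fun m => (hIt m).bdd x n z)
  refine ⟨D, ⟨fun n z => ?_, hDb, fun q x n z => ?_⟩, fun x n z hρ => ?_⟩
  · have hunif : TendstoUniformly (fun m x => It ψ κ ρ u m x n z) (fun x => D x n z) atTop := by
      rw [Metric.tendstoUniformly_iff]
      intro ε hε
      filter_upwards [hgeo.eventually_lt_const hε] with m hm x
      rw [dist_comm, dist_eq_norm]
      exact (hDdist m x n z).trans_lt hm
    exact hunif.continuous (Frequently.of_forall fun m => (hIt m).cont n z)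
  · refine tendsto_nhds_unique (hDlim (q +ᵥ x) n z) ?_
    refine (hDlim x (n + q) z).congr fun m => ?_
    exact ((hIt m).equi q x n z).symm
  · show D x n z + ∑' i, Tm ψ κ ρ D n z i x = u x n z
    have h0 : 0 < ρ x n z := by
      rw [hρ]
      exact one_pos
    have hT : Tendsto (fun m => ∑' i, Tm ψ κ ρ (It ψ κ ρ u m) n z i x) atTop
        (𝓝 (∑' i, Tm ψ κ ρ D n z i x)) := by
      rw [tendsto_iff_norm_sub_tendsto_zero]
      refine squeeze_zero (fun m => norm_nonneg _) (fun m => ?_) hgeo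
      have s1 := (tm_summable hκ hR hW hC _ h2B (hIt m).bdd x n z).of_norm
      have s2 := (tm_summable hκ hR hW hC _ h2B hDb x n z).of_norm
      have hm0 : 0 ≤ 4 * B * (1 / 2) ^ m := by positivity
      have h3 := tm_small hκ hR hW hC hC0 hR2 _ hm0 (hDdist m) x n z h0
      have h2 : ∑' i, Tm ψ κ ρ (fun x n z => It ψ κ ρ u m x n z
            - D x n z) n z i x = ∑' i, Tm ψ κ ρ (It ψ κ ρ u m) n z i x
            - ∑' i, Tm ψ κ ρ D n z i x := by
        rw [← s1.tsum_sub s2]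
        exact tsum_congr fun i => tm_sub _ _ n z i x
      rw [h2] at h3
      linarith
    have h4 : Tendsto (fun m => It ψ κ ρ u (m + 1) x n z) atTop
        (𝓝 (u x n z - ∑' i, Tm ψ κ ρ D n z i x)) := by
      refine (tendsto_const_nhds.sub hT).congr fun m => ?_
      show _ = (ρ x n z : ℂ) * (u x n z - ∑' i, Tm ψ κ ρ (It ψ κ ρ u m) n z i x)
      rw [hρ]
      simp
    have h5 := tendsto_nhds_unique ((hDlim x n z).comp (tendsto_add_atTop_nat 1)) h4
    rw [h5]
    ring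

end Pool.Agent.Run7.h888.RT
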